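import Pool.Agent.DPL.StmtsC

/-!
# DPL row LAS (helper15): sums of degrees on a level
-/

namespace Pool.Agent.DPL.H15

open Finset Polynomial Pool.Agent.DPS

/-- double count of the pairs `(J, x)`, `x ∈ J ⊆ R`, `|J| = j + 1` -/
theorem dcount {α : Type*} [DecidableEq α] (R : Finset α) (j : ℕ) (g : Finset α → ℝ) :
    ∑ J ∈ powersetCard (j + 1) R, ∑ x ∈ J, g (J.erase x) =
      ((R.card : ℝ) - j) * ∑ I ∈ powersetCard j R, g I := by
  have h1 : ∑ J ∈ powersetCard (j + 1) R, ∑ x ∈ J, g (J.erase x) =
      ∑ I ∈ powersetCard j R, ∑ x ∈ R \ I, g I := by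
    rw [Finset.sum_sigma', Finset.sum_sigma']
    refine Finset.sum_bij' (fun p _ => ⟨p.1.erase p.2, p.2⟩) (fun p _ => ⟨insert p.2 p.1, p.2⟩)
      ?_ ?_ ?_ ?_ ?_
    · rintro ⟨J, x⟩ h
      simp only [Finset.mem_sigma, mem_powersetCard, mem_sdiff] at h ⊢
      obtain ⟨⟨hJR, hJ⟩, hx⟩ := h
      refine ⟨⟨(erase_subset _ _).trans hJR, ?_⟩, hJR hx, notMem_erase _ _⟩
      rw [card_erase_of_mem hx, hJ]; rfl
    · rintro ⟨I, x⟩ h
      simp only [Finset.mem_sigma, mem_powersetCard, mem_sdiff] at h ⊢
      obtain ⟨⟨hIR, hI⟩, hxR, hx⟩ := h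
      refine ⟨⟨insert_subset hxR hIR, ?_⟩, mem_insert_self _ _⟩
      rw [card_insert_of_notMem hx, hI]
    · rintro ⟨J, x⟩ h
      simp only [Finset.mem_sigma] at h
      simp only [insert_erase h.2]
    · rintro ⟨I, x⟩ h
      simp only [Finset.mem_sigma, mem_sdiff] at h
      simp only [erase_insert h.2.2]
    · rintro ⟨J, x⟩ h
      rfl
  rw [h1, Finset.mul_sum]
  refine Finset.sum_congr rfl fun I hI => ?_
  rw [mem_powersetCard] at hI
  rw [Finset.sum_const, nsmul_eq_mul, card_sdiff_of_subset hI.1, hI.2,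
    Nat.cast_sub (hI.2 ▸ card_le_card hI.1)]

theorem dg_smul {n k : ℕ} (c : ℝ) (f : KS n k → ℝ) (R : Finset (Fin n)) :
    dg (c • f) R = c * dg f R := by
  unfold dg
  rw [Finset.mul_sum]
  refine Finset.sum_congr rfl fun F _ => ?_
  simp

theorem las (hLAD : LADStmt) : LASStmt := by
  intro n k l r j hkn hlj hjr hrk f hf R hR
  have key : ∀ m j : ℕ, l ≤ j → j + m = r →
      ((k - j).descFactorial m : ℝ) * ∑ J ∈ powersetCard j R, dg f J =
        ((r - l).choose m : ℝ) * ((n - l - j).descFactorial m : ℝ) * dg f R := by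
    intro m
    induction m with
    | zero =>
      intro j _ hj
      have hj' : j = R.card := by omega
      rw [hj', powersetCard_self]
      simp
    | succ m ih =>
      intro j hl hj
      have h0 := ih (j + 1) (by omega) (by omega)
      have h1 : ∀ J ∈ powersetCard (j + 1) R,
          ((k : ℝ) - j) * ∑ x ∈ J, dg f (J.erase x) =
            (((j : ℝ) + 1 - l) * ((n : ℝ) - l - j)) * dg f J := by
        intro J hJ
        rw [mem_powersetCard] at hJ
        have h2 := hLAD n k f J
        rw [hJ.2, hf, dg_smul] at h2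
        have h3 : ((k : ℝ) - j) = (k : ℝ) - ((j + 1 : ℕ) : ℝ) + 1 := by push_cast; ring
        rw [h3, h2]
        unfold y
        push_cast
        ring
      have h2 : ((k : ℝ) - j) * ((((m : ℝ) + 1)) * ∑ I ∈ powersetCard j R, dg f I) =
          (((j : ℝ) + 1 - l) * ((n : ℝ) - l - j)) * ∑ J ∈ powersetCard (j + 1) R, dg f J := by
        have h3 := dcount R j (fun I => dg f I)
        have h4 : ((R.card : ℝ) - j) = (m : ℝ) + 1 := by
          rw [hR, ← hj]; push_cast; ring
        rw [h4] at h3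
        rw [← h3, Finset.mul_sum, Finset.mul_sum]
        exact Finset.sum_congr rfl h1
      have e1 : ((k - j).descFactorial (m + 1) : ℝ) =
          ((k : ℝ) - j) * ((k - (j + 1)).descFactorial m : ℝ) := by
        have h5 : k - j = (k - (j + 1)) + 1 := by omega
        rw [h5, Nat.succ_descFactorial_succ]
        have h6 : ((k - (j + 1) + 1 : ℕ) : ℝ) = (k : ℝ) - j := by
          rw [← h5, Nat.cast_sub (by omega)]
        rw [Nat.cast_mul, h6]
      have e2 : ((n - l - j).descFactorial (m + 1) : ℝ) =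
          ((n : ℝ) - l - j) * ((n - l - (j + 1)).descFactorial m : ℝ) := by
        have h5 : n - l - j = (n - l - (j + 1)) + 1 := by omega
        rw [h5, Nat.succ_descFactorial_succ]
        have h6 : ((n - l - (j + 1) + 1 : ℕ) : ℝ) = (n : ℝ) - l - j := by
          rw [← h5, Nat.cast_sub (by omega), Nat.cast_sub (by omega)]
        rw [Nat.cast_mul, h6]
      have e3 : ((r - l).choose (m + 1) : ℝ) * ((m : ℝ) + 1) =
          ((r - l).choose m : ℝ) * ((j : ℝ) + 1 - l) := by
        have h5 := Nat.choose_succ_right_eq (r - l) m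
        have h6 : r - l - m = j + 1 - l := by omega
        rw [h6] at h5
        have h7 : (((r - l).choose (m + 1) * (m + 1) : ℕ) : ℝ) =
            (((r - l).choose m * (j + 1 - l) : ℕ) : ℝ) := by exact_mod_cast h5
        rw [Nat.cast_mul, Nat.cast_mul, Nat.cast_sub (by omega)] at h7
        push_cast at h7
        exact h7
      have hm : ((m : ℝ) + 1) ≠ 0 := by positivity
      apply mul_left_cancel₀ hm
      rw [e1, e2]
      calc ((m : ℝ) + 1) * (((k : ℝ) - j) * ((k - (j + 1)).descFactorial m : ℝ) *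
            ∑ J ∈ powersetCard j R, dg f J)
          = ((k - (j + 1)).descFactorial m : ℝ) *
              (((k : ℝ) - j) * ((((m : ℝ) + 1)) * ∑ I ∈ powersetCard j R, dg f I)) := by ring
        _ = (((j : ℝ) + 1 - l) * ((n : ℝ) - l - j)) *
              (((k - (j + 1)).descFactorial m : ℝ) * ∑ J ∈ powersetCard (j + 1) R, dg f J) := by
            rw [h2]; ring
        _ = (((r - l).choose m : ℝ) * ((j : ℝ) + 1 - l)) * ((n : ℝ) - l - j) *
              ((n - l - (j + 1)).descFactorial m : ℝ) * dg f R := by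
            rw [h0]; ring
        _ = _ := by
            rw [← e3]; ring
  exact key (r - j) j hlj (by omega)

end Pool.Agent.DPL.H15
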